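import Pool.Agent.Lib.P2a19di.Main

/-!
A group which contains a non-isometry contains an element which expands the volume of some
`r`-dimensional subspace.
-/

set_option autoImplicit false

namespace Pool.Agent.P2a19di

open Module

lemma const_of_prod (s : ℕ → ℝ) (hs : Antitone s) (n r : ℕ) (hr0 : 0 < r) (hr : r < n)
    (hpos : ∀ i, i < n → 0 < s i) (h1 : ∏ i : Fin r, s i ≤ 1)
    (h2 : 1 ≤ ∏ i : Fin r, s (n - r + i)) : ∀ i, i < n → s i = 1 := by
  have hle : ∀ i : Fin r, s (n - r + i) ≤ s i := fun i => hs (by omega)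
  have heq : ∀ i : Fin r, s (n - r + i) = s i := by
    by_contra hc
    push Not at hc
    obtain ⟨i, hi⟩ := hc
    have h3 : ∏ i : Fin r, s (n - r + i) < ∏ i : Fin r, s i :=
      Finset.prod_lt_prod (fun i _ => hpos _ (by have := i.2; omega)) (fun i _ => hle i)
        ⟨i, Finset.mem_univ _, lt_of_le_of_ne (hle i) hi⟩
    linarith
  have hconst : ∀ i, i < n → s i = s 0 := by
    intro i
    induction i using Nat.strong_induction_on with
    | _ i ih =>
      intro hi
      by_cases h : i ≤ n - r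
      · have h3 := heq ⟨0, hr0⟩
        simp only [add_zero] at h3
        exact le_antisymm (hs (Nat.zero_le _)) (by rw [← h3]; exact hs h)
      · have h3 := heq ⟨i - (n - r), by omega⟩
        simp only at h3
        rw [show n - r + (i - (n - r)) = i by omega] at h3
        rw [h3]
        exact ih _ (by omega) (by omega)
  have hP : ∏ i : Fin r, s i = s 0 ^ r := by
    have h : ∀ i ∈ (Finset.univ : Finset (Fin r)), s (i : ℕ) = s 0 := fun i _ =>
      hconst _ (by have := i.2; omega)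
    rw [Finset.prod_congr rfl h]
    simp
  have hP2 : ∏ i : Fin r, s (n - r + i) = s 0 ^ r := by
    have h : ∀ i ∈ (Finset.univ : Finset (Fin r)), s (n - r + i) = s 0 := fun i _ =>
      hconst _ (by have := i.2; omega)
    rw [Finset.prod_congr rfl h]
    simp
  have h4 : s 0 ^ r = 1 := le_antisymm (by rw [← hP]; exact h1) (by rw [← hP2]; exact h2)
  have h5 : s 0 = 1 := (pow_eq_one_iff_of_nonneg (hpos 0 (by omega)).le (by omega)).1 h4
  intro i hi
  rw [hconst i hi, h5]

theorem exists_expand {𝕜 V : Type*} [RCLike 𝕜] [NormedAddCommGroup V] [InnerProductSpace 𝕜 V]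
    [FiniteDimensional 𝕜 V] {G : Subgroup (V ≃ₗ[𝕜] V)} {g : V ≃ₗ[𝕜] V} (hg : g ∈ G)
    (hni : ¬ ∀ v, ‖g v‖ = ‖v‖) {r : ℕ} (hr0 : 0 < r) (hr : r < finrank 𝕜 V) :
    ∃ g1 ∈ G, ∃ (f e : Fin r → V) (σ : Fin r → ℝ), Orthonormal 𝕜 f ∧ Orthonormal 𝕜 e ∧
      (∀ i, 0 ≤ σ i) ∧ (∀ i, g1 (f i) = (σ i : 𝕜) • e i) ∧ 1 < ∏ i, σ i := by
  obtain ⟨b, c, hbc⟩ := svd (g : V →ₗ[𝕜] V)
  set s : ℕ → ℝ := fun i => (g : V →ₗ[𝕜] V).singularValues i with hs
  have hanti : Antitone s := (g : V →ₗ[𝕜] V).singularValues_antitone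
  have hpos : ∀ i, i < finrank 𝕜 V → 0 < s i := fun i hi =>
    (LinearMap.injective_iff_forall_lt_finrank_singularValues_pos _).1 g.injective i hi
  have hbc' : ∀ i, g (b i) = (s i : 𝕜) • c i := hbc
  have hinv : ∀ i, g⁻¹ (c i) = (((s i)⁻¹ : ℝ) : 𝕜) • b i := by
    intro i
    have h1 : (s i : 𝕜) ≠ 0 := by exact_mod_cast (hpos i i.2).ne'
    have h2 : g ((((s i)⁻¹ : ℝ) : 𝕜) • b i) = c i := by
      rw [map_smul, hbc', smul_smul, RCLike.ofReal_inv, inv_mul_cancel₀ h1, one_smul]
    rw [← h2]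
    exact g.symm_apply_apply _
  by_cases hP1 : 1 < ∏ i : Fin r, s i
  · refine ⟨g, hg, fun i => b (Fin.castLE hr.le i), fun i => c (Fin.castLE hr.le i),
      fun i => s i, b.orthonormal.comp _ (Fin.castLE_injective hr.le),
      c.orthonormal.comp _ (Fin.castLE_injective hr.le), fun i => ?_, fun i => ?_, hP1⟩
    · exact (hpos i (by have := i.2; omega)).le
    · exact hbc' (Fin.castLE hr.le i)
  by_cases hP2 : ∏ i : Fin r, s (finrank 𝕜 V - r + i) < 1
  · let k : Fin r → Fin (finrank 𝕜 V) := fun i => ⟨finrank 𝕜 V - r + i, by have := i.2; omega⟩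
    have hk : Function.Injective k := by
      intro i j h
      have := congrArg Fin.val h
      simp only [k] at this
      exact Fin.ext (by omega)
    refine ⟨g⁻¹, inv_mem hg, fun i => c (k i), fun i => b (k i), fun i => (s (k i))⁻¹,
      c.orthonormal.comp _ hk, b.orthonormal.comp _ hk, fun i => ?_, fun i => hinv (k i), ?_⟩
    · exact (inv_pos.2 (hpos _ (k i).2)).le
    · rw [Finset.prod_inv_distrib]
      refine (one_lt_inv₀ ?_).2 hP2
      exact Finset.prod_pos fun i _ => hpos _ (k i).2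
  exfalso
  have h1 := const_of_prod s hanti (finrank 𝕜 V) r hr0 hr hpos (not_lt.1 hP1) (not_lt.1 hP2)
  apply hni
  have h2 : (g : V →ₗ[𝕜] V) = (b.equiv c (Equiv.refl _)).toLinearEquiv.toLinearMap := by
    refine b.toBasis.ext fun i => ?_
    rw [OrthonormalBasis.coe_toBasis]
    change g (b i) = (b.equiv c (Equiv.refl _)) (b i)
    rw [hbc', h1 i i.2]
    simp
  intro v
  have h3 : g v = (b.equiv c (Equiv.refl _)) v := LinearMap.congr_fun h2 v
  rw [h3, LinearIsometryEquiv.norm_map]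

end Pool.Agent.P2a19di
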