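import Pool.Agent.Lib.P2a19di.Svd

/-!
Necessity: volumes of `r`-dimensional parallelepipeds are not increased by the semigroup if the
product of the singular values is at most one.
-/

set_option autoImplicit false

namespace Pool.Agent.P2a19di

open Module Pool.Agent.P2a19db

variable {𝕜 V : Type*} [RCLike 𝕜] [NormedAddCommGroup V] [InnerProductSpace 𝕜 V]

lemma normDet_le_one {U W : Type*} [NormedAddCommGroup U] [InnerProductSpace 𝕜 U]
    [FiniteDimensional 𝕜 U] [NormedAddCommGroup W] [InnerProductSpace 𝕜 W] [FiniteDimensional 𝕜 W]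
    (f : U →ₗ[𝕜] W) (hf : ∀ x, ‖f x‖ ≤ ‖x‖) : f.normDet ≤ 1 := by
  rw [LinearMap.normDet_eq_prod_singularValues]
  refine Finset.prod_le_one (fun i _ => f.singularValues_nonneg i) fun i hi => ?_
  rw [Finset.mem_range] at hi
  obtain ⟨v, hv⟩ := (f.hasEigenvalue_adjoint_comp_self_sq_singularValues hi).exists_hasEigenvector
  have hv0 : v ≠ 0 := hv.2
  have hve : (LinearMap.adjoint f) (f v) = ((f.singularValues i ^ 2 : ℝ) : 𝕜) • v := by
    have := hv.apply_eq_smul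
    simpa using this
  have h1 : ‖f v‖ ^ 2 = f.singularValues i ^ 2 * ‖v‖ ^ 2 := by
    have h2 : inner 𝕜 (f v) (f v) = ((f.singularValues i ^ 2 : ℝ) : 𝕜) * inner 𝕜 v v := by
      rw [← LinearMap.adjoint_inner_right, hve, inner_smul_right]
    rw [inner_self_eq_norm_sq_to_K, inner_self_eq_norm_sq_to_K] at h2
    exact_mod_cast h2
  have h3 : ‖f v‖ ^ 2 ≤ ‖v‖ ^ 2 := pow_le_pow_left₀ (norm_nonneg _) (hf v) 2
  have h4 : 0 < ‖v‖ ^ 2 := by
    have := norm_pos_iff.2 hv0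
    positivity
  have h5 : f.singularValues i ^ 2 ≤ 1 := by
    rw [h1] at h3
    by_contra h
    push Not at h
    nlinarith
  exact (sq_le_one_iff₀ (f.singularValues_nonneg i)).1 h5

/-- `b` does not increase the volume of `r`-dimensional parallelepipeds -/
def Vol [FiniteDimensional 𝕜 V] (r : ℕ) (b : Module.End 𝕜 V) : Prop :=
  ∀ W : Submodule 𝕜 V, finrank 𝕜 W = r → (b.domRestrict W).normDet ≤ 1

lemma Vol_mul [FiniteDimensional 𝕜 V] {r : ℕ} {b c : Module.End 𝕜 V} (hb : Vol r b) (hc : Vol r c) : Vol r (b * c) := by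
  intro W hW
  have e : (b * c).domRestrict W = b ∘ₗ (c.domRestrict W) := rfl
  rw [e, LinearMap.normDet_comp]
  by_cases h : (c.domRestrict W).normDet = 0
  · rw [h, mul_zero]
    exact zero_le_one
  · have hr : finrank 𝕜 (c.domRestrict W).range = r := by
      rw [← hW]
      by_contra h2
      exact h (LinearMap.normDet_eq_zero_iff_rank_range_ne.2 h2)
    exact mul_le_one₀ (hb _ hr) (LinearMap.normDet_nonneg _) (hc W hW)

lemma Vol_isom [FiniteDimensional 𝕜 V] {r : ℕ} {g : V →ₗ[𝕜] V} (hg : ∀ v, ‖g v‖ = ‖v‖) : Vol r g := by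
  intro W _
  have : (⟨g.domRestrict W, fun v => hg v⟩ : W →ₗᵢ[𝕜] V).toLinearMap.normDet = 1 :=
    LinearIsometry.normDet_eq_one _
  exact this.le

/-- the isometric embedding with prescribed orthonormal images of the standard basis -/
lemma exists_emb {r : ℕ} {u : Fin r → V} (hu : Orthonormal 𝕜 u) :
    ∃ ι : EuclideanSpace 𝕜 (Fin r) →ₗᵢ[𝕜] V, ∀ i, ι (EuclideanSpace.basisFun (Fin r) 𝕜 i) = u i := by
  let f : EuclideanSpace 𝕜 (Fin r) →ₗ[𝕜] V :=
    (EuclideanSpace.basisFun (Fin r) 𝕜).toBasis.constr 𝕜 u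
  have hf : ∀ i, f ((EuclideanSpace.basisFun (Fin r) 𝕜).toBasis i) = u i := fun i =>
    Basis.constr_basis _ _ _ _
  refine ⟨f.isometryOfOrthonormal (v := (EuclideanSpace.basisFun (Fin r) 𝕜).toBasis)
    (by
      rw [OrthonormalBasis.coe_toBasis]
      exact (EuclideanSpace.basisFun (Fin r) 𝕜).orthonormal) (by
      have : f ∘ (EuclideanSpace.basisFun (Fin r) 𝕜).toBasis = u := funext hf
      rw [this]
      exact hu), fun i => ?_⟩
  rw [LinearMap.coe_isometryOfOrthonormal]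
  simpa using hf i

/-- the volume factor of `MM w d u` -/
lemma normDet_MM {r : ℕ} {u w : Fin r → V} (hu : Orthonormal 𝕜 u) (hw : Orthonormal 𝕜 w)
    (d : Fin r → ℝ) (hd : ∀ i, 0 ≤ d i) {ι : EuclideanSpace 𝕜 (Fin r) →ₗᵢ[𝕜] V}
    (hι : ∀ i, ι (EuclideanSpace.basisFun (Fin r) 𝕜 i) = u i) :
    ((MM w d u : Module.End 𝕜 V) ∘ₗ ι.toLinearMap).normDet = ∏ i, d i := by
  have h1 := LinearMap.normDet_sq_eq_det_gram ((MM w d u : Module.End 𝕜 V) ∘ₗ ι.toLinearMap)
    (EuclideanSpace.basisFun (Fin r) 𝕜)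
  have h2 : ∀ i, ((MM w d u : Module.End 𝕜 V) ∘ₗ ι.toLinearMap) (EuclideanSpace.basisFun (Fin r) 𝕜 i) =
      (d i : 𝕜) • w i := by
    intro i
    rw [LinearMap.comp_apply, LinearIsometry.coe_toLinearMap, hι, MM_apply, Finset.sum_eq_single i]
    · rw [orthonormal_iff_ite.1 hu, if_pos rfl, mul_one]
    · intro j _ hj
      rw [orthonormal_iff_ite.1 hu, if_neg hj]
      simp
    · simp
  have h3 : Matrix.gram 𝕜 (fun i => ((MM w d u : Module.End 𝕜 V) ∘ₗ ι.toLinearMap)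
      (EuclideanSpace.basisFun (Fin r) 𝕜 i)) = Matrix.diagonal fun i => ((d i * d i : ℝ) : 𝕜) := by
    ext i j
    rw [Matrix.gram_apply, h2, h2, inner_smul_left, inner_smul_right, orthonormal_iff_ite.1 hw,
      Matrix.diagonal_apply]
    by_cases hij : i = j
    · subst hij
      simp
    · simp [hij]
  rw [h3, Matrix.det_diagonal, ← RCLike.ofReal_prod] at h1
  have h4 := RCLike.ofReal_injective h1
  rw [Finset.prod_mul_distrib, ← pow_two] at h4
  exact (pow_left_inj₀ (LinearMap.normDet_nonneg _) (Finset.prod_nonneg fun i _ => hd i) two_ne_zero).1 h4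

lemma Vol_MM [FiniteDimensional 𝕜 V] {r : ℕ} {u w : Fin r → V} (hu : Orthonormal 𝕜 u) (hw : Orthonormal 𝕜 w)
    (d : Fin r → ℝ) (hd : ∀ i, 0 ≤ d i) (h : ∏ i, d i ≤ 1) : Vol r (MM w d u : Module.End 𝕜 V) := by
  obtain ⟨ι, hι⟩ := exists_emb hu
  intro W hW
  have e : (MM w d u : Module.End 𝕜 V).domRestrict W =
      ((MM w d u : Module.End 𝕜 V) ∘ₗ ι.toLinearMap) ∘ₗ ((LinearMap.adjoint ι.toLinearMap).domRestrict W) := by
    ext v
    simp only [LinearMap.domRestrict_apply, LinearMap.comp_apply]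
    rw [MM_apply, MM_apply]
    refine Finset.sum_congr rfl fun i _ => ?_
    congr 2
    rw [← hι, LinearIsometry.coe_toLinearMap, ι.inner_map_map, LinearMap.adjoint_inner_right]
    rfl
  rw [e, LinearMap.normDet_comp_of_finrank_eq _ _ (by rw [hW]; simp), normDet_MM hu hw d hd hι]
  refine mul_le_one₀ h (LinearMap.normDet_nonneg _) (normDet_le_one _ fun v => ?_)
  rw [LinearMap.domRestrict_apply]
  set x : V := (v : V)
  set y := (LinearMap.adjoint ι.toLinearMap) x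
  have h1 : ‖y‖ ^ 2 ≤ ‖y‖ * ‖x‖ := by
    have h2 : inner 𝕜 y y = inner 𝕜 (ι y) x := LinearMap.adjoint_inner_right ι.toLinearMap y x
    have h3 : (‖y‖ ^ 2 : ℝ) = RCLike.re (inner 𝕜 (ι y) x : 𝕜) := by
      rw [← h2, inner_self_eq_norm_sq]
    rw [h3]
    calc RCLike.re (inner 𝕜 (ι y) x : 𝕜) ≤ ‖(inner 𝕜 (ι y) x : 𝕜)‖ := RCLike.re_le_norm _
      _ ≤ ‖ι y‖ * ‖x‖ := norm_inner_le_norm _ _
      _ = ‖y‖ * ‖x‖ := by rw [ι.norm_map]
  change ‖y‖ ≤ ‖x‖
  by_cases hy : ‖y‖ = 0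
  · rw [hy]
    exact norm_nonneg _
  · have : 0 < ‖y‖ := lt_of_le_of_ne (norm_nonneg _) (Ne.symm hy)
    nlinarith

end Pool.Agent.P2a19di
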