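import Pool.Agent.Lib.P2a19di.Suff
import Pool.Agent.Lib.P2a19di.Nec

/-!
The criterion for groups of isometries.
-/

set_option autoImplicit false

namespace Pool.Agent.P2a19di

open Module Pool.Agent.P2a19db

variable {𝕜 V : Type*} [RCLike 𝕜] [NormedAddCommGroup V] [InnerProductSpace 𝕜 V]
  [FiniteDimensional 𝕜 V]

lemma ker_ne_bot {a : Module.End 𝕜 V} (ha : ¬ IsUnit a) : LinearMap.ker a ≠ ⊥ := by
  intro h
  exact ha ((LinearMap.isUnit_iff_ker_eq_bot a).2 h)

lemma rank_lt {a : Module.End 𝕜 V} (ha : ¬ IsUnit a) :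
    finrank 𝕜 (LinearMap.range a) < finrank 𝕜 V := by
  have a2 := LinearMap.finrank_range_add_finrank_ker a
  have : 0 < finrank 𝕜 (LinearMap.ker a) := by
    rw [Nat.pos_iff_ne_zero]
    intro h0
    exact ker_ne_bot ha (Submodule.finrank_eq_zero.1 h0)
  omega

lemma isPair_of_mem {a : Module.End 𝕜 V} (ha : ¬ IsUnit a) {G : Subgroup (V ≃ₗ[𝕜] V)}
    (h : ∀ x : Module.End 𝕜 V, finrank 𝕜 (LinearMap.range x) ≤ finrank 𝕜 (LinearMap.range a) →
      x ∈ gen a G) : IsAutPair a G := by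
  have hK := ker_ne_bot ha
  have hlt := rank_lt ha
  have hT : ∀ t ∈ TT 𝕜 V (finrank 𝕜 (LinearMap.range a)),
      finrank 𝕜 (LinearMap.range t) ≤ finrank 𝕜 (LinearMap.range a) := by
    intro t ht
    unfold TT at ht
    induction ht using Subsemigroup.closure_induction with
    | mem x hx => exact le_of_eq hx
    | mul x y hx hy ihx ihy =>
      refine le_trans (Submodule.finrank_mono ?_) ihx
      rintro _ ⟨v, rfl⟩
      exact ⟨y v, rfl⟩
  unfold IsAutPair
  apply Set.Subset.antisymm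
  · rintro x ⟨hx, hx'⟩
    obtain ⟨v, hv, hxv⟩ := exists_ker_of_mem hK hx hx'
    exact ⟨gen_mono le_top hx, not_unit_of_kernel hv hxv _⟩
  · rintro x ⟨hx, hx'⟩
    rcases gen_top_sub hx with h1 | h1
    · exact absurd h1 hx'
    · have h2 := hT x h1
      have h3 : LinearMap.ker x ≠ ⊥ := by
        intro h0
        have a2 := LinearMap.finrank_range_add_finrank_ker x
        rw [h0, finrank_bot] at a2
        omega
      obtain ⟨v, hv, hv0⟩ := (Submodule.ne_bot_iff _).1 h3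
      exact ⟨h x h2, not_unit_of_kernel hv0 hv _⟩

/-- Sufficiency. -/
theorem suff {a : Module.End 𝕜 V} (ha : ¬ IsUnit a) (ha0 : a ≠ 0) {G : Subgroup (V ≃ₗ[𝕜] V)}
    (hG : ∀ g ∈ G, ∀ v, ‖g v‖ = ‖v‖) (hF : FrameTrans G (finrank 𝕜 (LinearMap.range a)))
    (hd : 1 < ∏ i ∈ Finset.range (finrank 𝕜 (LinearMap.range a)), a.singularValues i) :
    IsAutPair a G := by
  have hlt := rank_lt ha
  set r := finrank 𝕜 (LinearMap.range a) with hr
  have hr0 : r ≠ 0 := by
    intro h0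
    rw [hr] at h0
    have h1 := Submodule.finrank_eq_zero.1 h0
    exact ha0 (LinearMap.range_eq_bot.1 h1)
  have : NeZero r := ⟨hr0⟩
  obtain ⟨u₀, w₀, hu₀, hw₀, hau⟩ := exists_MM a hlt.le le_rfl
  have hs : (fun i : Fin r => a.singularValues i) ∈ DD (gen a G : Set (Module.End 𝕜 V)) r := by
    intro u w hu hw
    obtain ⟨g, hg, hgw⟩ := hF w₀ w hw₀ hw
    obtain ⟨h, hh, hhu⟩ := hF u u₀ hu hu₀
    have e : (MM w (fun i : Fin r => a.singularValues i) u : Module.End 𝕜 V) =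
        (g : V →ₗ[𝕜] V) * a * (h : V →ₗ[𝕜] V) := by
      conv_rhs => rw [hau]
      rw [left_mul_MM]
      have e1 : (fun i => (g : V →ₗ[𝕜] V) (w₀ i)) = w := funext fun i => hgw i
      have e2 : u₀ = (fun i => (h : V →ₗ[𝕜] V) (u i)) := (funext fun i => hhu i).symm
      rw [e1, e2, MM_mul_right _ (fun v => hG h hh v)]
    rw [e]
    exact mul_mem (mul_mem (g_mem hg) a_mem) (g_mem hh)
  have hc := const_mem hs
  rw [Finset.prod_range] at hd
  refine isPair_of_mem ha fun x hx => ?_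
  obtain ⟨u, w, hu, hw, hxu⟩ := exists_MM x hlt.le hx
  rw [hxu]
  exact all_mem hlt hd hc _ (fun i => x.singularValues_nonneg i) u w hu hw

/-- Necessity. -/
theorem nec {a : Module.End 𝕜 V} (ha : ¬ IsUnit a) (ha0 : a ≠ 0) {G : Subgroup (V ≃ₗ[𝕜] V)}
    (hG : ∀ g ∈ G, ∀ v, ‖g v‖ = ‖v‖) (hp : IsAutPair a G) :
    1 < ∏ i ∈ Finset.range (finrank 𝕜 (LinearMap.range a)), a.singularValues i := by
  have hlt := rank_lt ha
  set r := finrank 𝕜 (LinearMap.range a) with hr
  have hr0 : r ≠ 0 := by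
    intro h0
    rw [hr] at h0
    have h1 := Submodule.finrank_eq_zero.1 h0
    exact ha0 (LinearMap.range_eq_bot.1 h1)
  by_contra hd
  push Not at hd
  rw [Finset.prod_range] at hd
  obtain ⟨u, w, hu, hw, hau⟩ := exists_MM a hlt.le le_rfl
  have hpos : 0 < ∏ i : Fin r, a.singularValues i :=
    Finset.prod_pos fun i _ => a.singularValues_pos_iff_lt_finrank_range.2 i.2
  have hva : Vol r a := by
    rw [hau]
    exact Vol_MM hu hw _ (fun i => a.singularValues_nonneg i) hd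
  have hall : ∀ b ∈ gen a G, Vol r b := by
    intro b hb
    unfold gen at hb
    induction hb using Subsemigroup.closure_induction with
    | mem x hx =>
      rcases hx with hx | ⟨g, hg, rfl⟩
      · rw [Set.mem_singleton_iff.1 hx]
        exact hva
      · exact Vol_isom fun v => hG g hg v
    | mul x y hx hy ihx ihy => exact Vol_mul ihx ihy
  obtain ⟨ι, hι⟩ := exists_emb hu
  set δ := ∏ i : Fin r, a.singularValues i with hδ
  -- a large multiple of `a`
  set t : ℝ := 1 + δ⁻¹ with ht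
  have ht0 : 0 < t := by positivity
  have htne : (t : 𝕜) ≠ 0 := by exact_mod_cast ht0.ne'
  let g : V ≃ₗ[𝕜] V := LinearEquiv.smulOfNeZero 𝕜 V (t : 𝕜) htne
  have hc : ((g : V →ₗ[𝕜] V) * a : Module.End 𝕜 V) ∈ (gen a ⊤ : Set (Module.End 𝕜 V)) \ units ⊤ := by
    refine ⟨mul_mem (g_mem (Subgroup.mem_top g)) a_mem, ?_⟩
    obtain ⟨v, hv, hv0⟩ := (Submodule.ne_bot_iff _).1 (ker_ne_bot ha)
    refine not_unit_of_kernel hv0 ?_ _
    rw [Module.End.mul_apply, LinearMap.mem_ker.1 hv, map_zero]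
  rw [← hp] at hc
  have hv := hall _ hc.1
  have hrank : finrank 𝕜 ι.toLinearMap.range = r := by
    rw [LinearMap.finrank_range_of_inj ι.injective]
    simp
  have h1 := hv _ hrank
  have h2 : (((g : V →ₗ[𝕜] V) * a : Module.End 𝕜 V) ∘ₗ ι.toLinearMap).normDet ≤ 1 := by
    rw [LinearMap.normDet_comp, LinearIsometry.normDet_eq_one, mul_one]
    exact h1
  have h3 : ((g : V →ₗ[𝕜] V) * a : Module.End 𝕜 V) ∘ₗ ι.toLinearMap =
      (t : 𝕜) • (a ∘ₗ ι.toLinearMap) := by
    ext v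
    rfl
  rw [h3, LinearMap.normDet_smul] at h2
  have h4 : (a ∘ₗ ι.toLinearMap).normDet = δ := by
    conv_lhs => rw [hau]
    exact normDet_MM hu hw _ (fun i => a.singularValues_nonneg i) hι
  rw [h4, RCLike.norm_ofReal, abs_of_pos ht0] at h2
  have h5 : t ≤ t ^ finrank 𝕜 (EuclideanSpace 𝕜 (Fin r)) := by
    have : finrank 𝕜 (EuclideanSpace 𝕜 (Fin r)) = r := by simp
    rw [this]
    exact le_self_pow₀ (by rw [ht]; linarith [inv_pos.2 hpos]) hr0
  have h6 : t * δ = δ + 1 := by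
    rw [ht]
    field_simp
  nlinarith

end Pool.Agent.P2a19di
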