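import Pool.Agent.Lib.P2a19di.Suff

/-!
The isometries of determinant one are transitive on orthonormal systems of fewer than `dim V` vectors.
-/

set_option autoImplicit false

namespace Pool.Agent.P2a19di

open Module Pool.Agent.P2a19db

variable {𝕜 V : Type*} [RCLike 𝕜] [NormedAddCommGroup V] [InnerProductSpace 𝕜 V]
  [FiniteDimensional 𝕜 V]

lemma exists_extend {r : ℕ} (hr : r ≤ finrank 𝕜 V) {u : Fin r → V} (hu : Orthonormal 𝕜 u) :
    ∃ b : OrthonormalBasis (Fin (finrank 𝕜 V)) 𝕜 V, ∀ i : Fin r, b (Fin.castLE hr i) = u i := by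
  let v : Fin (finrank 𝕜 V) → V := fun j => if h : (j : ℕ) < r then u ⟨j, h⟩ else 0
  let s : Set (Fin (finrank 𝕜 V)) := {j | (j : ℕ) < r}
  have hv : Orthonormal 𝕜 (s.domRestrict v) := by
    rw [orthonormal_iff_ite]
    rintro ⟨i, hi⟩ ⟨j, hj⟩
    have hi' : (i : ℕ) < r := hi
    have hj' : (j : ℕ) < r := hj
    change inner 𝕜 (v i) (v j) = _
    have e1 : v i = u ⟨i, hi'⟩ := dif_pos hi'
    have e2 : v j = u ⟨j, hj'⟩ := dif_pos hj'
    rw [e1, e2, orthonormal_iff_ite.1 hu]
    by_cases hij : i = j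
    · subst hij
      simp
    · have h1 : (⟨i, hi'⟩ : Fin r) ≠ ⟨j, hj'⟩ := fun h => hij (Fin.ext (by simpa using h))
      have h2 : (⟨i, hi⟩ : s) ≠ ⟨j, hj⟩ := fun h => hij (Subtype.ext_iff.1 h)
      rw [if_neg h1, if_neg h2]
  obtain ⟨b, hb⟩ := hv.exists_orthonormalBasis_extension_of_card_eq (by simp)
  refine ⟨b, fun i => ?_⟩
  have hi : Fin.castLE hr i ∈ s := i.2
  rw [hb _ hi]
  exact dif_pos i.2

theorem frameTrans_of_special {G : Subgroup (V ≃ₗ[𝕜] V)} {r : ℕ} (hr : r < finrank 𝕜 V)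
    (h : ∀ g : V ≃ₗ[𝕜] V, (∀ v, ‖g v‖ = ‖v‖) → LinearMap.det (g : V →ₗ[𝕜] V) = 1 → g ∈ G) :
    FrameTrans G r := by
  intro u w hu hw
  obtain ⟨b, hb⟩ := exists_extend hr.le hu
  obtain ⟨e, he⟩ := exists_extend hr.le hw
  have hθ : ‖b.toBasis.det e‖ = 1 := b.det_to_matrix_orthonormalBasis e
  let l : Fin (finrank 𝕜 V) := ⟨finrank 𝕜 V - 1, by omega⟩
  let c : Fin (finrank 𝕜 V) → 𝕜 := fun i => if i = l then (b.toBasis.det e)⁻¹ else 1
  have hc : ∀ i, ‖c i‖ = 1 := by
    intro i
    by_cases hi : i = l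
    · simp only [c, if_pos hi, norm_inv, hθ, inv_one]
    · simp only [c, if_neg hi, norm_one]
  have hon : Orthonormal 𝕜 (fun i => c i • e i) := by
    rw [orthonormal_iff_ite]
    intro i j
    rw [inner_smul_left, inner_smul_right, orthonormal_iff_ite.1 e.orthonormal]
    by_cases hij : i = j
    · subst hij
      rw [if_pos rfl, mul_one, RCLike.conj_mul, hc]
      simp
    · simp [hij]
  have : Nonempty (Fin (finrank 𝕜 V)) := ⟨l⟩
  let e' : OrthonormalBasis (Fin (finrank 𝕜 V)) 𝕜 V :=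
    OrthonormalBasis.mk hon (by
      rw [hon.linearIndependent.span_eq_top_of_card_eq_finrank (by simp)])
  have he' : ∀ i, e' i = c i • e i := fun i => by
    simp only [e', OrthonormalBasis.coe_mk]
  let g : V ≃ₗᵢ[𝕜] V := b.equiv e' (Equiv.refl _)
  have hg : ∀ i, g (b i) = e' i := fun i => by
    simp [g]
  refine ⟨g.toLinearEquiv, h _ (fun v => g.norm_map v) ?_, fun i => ?_⟩
  · have h1 := b.toBasis.det_comp (g.toLinearEquiv : V →ₗ[𝕜] V) b.toBasis
    rw [b.toBasis.det_self, mul_one] at h1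
    rw [← h1]
    have h2 : (g.toLinearEquiv : V →ₗ[𝕜] V) ∘ b.toBasis = fun i => c i • e i := by
      ext i
      rw [Function.comp_apply, OrthonormalBasis.coe_toBasis, ← he' i, ← hg i]
      rfl
    rw [h2]
    have h3 := (b.toBasis.det).toMultilinearMap.map_smul_univ c e
    have h4 : b.toBasis.det (fun i => c i • e i) = (∏ i, c i) • b.toBasis.det e := h3
    rw [h4]
    have h5 : ∏ i, c i = (b.toBasis.det e)⁻¹ := by
      simp only [c]
      rw [Finset.prod_ite_eq']
      simp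
    rw [h5, smul_eq_mul, inv_mul_cancel₀]
    intro h0
    rw [h0, norm_zero] at hθ
    exact zero_ne_one hθ
  · have h1 := hg (Fin.castLE hr.le i)
    rw [hb, he', he] at h1
    have h2 : c (Fin.castLE hr.le i) = 1 := by
      have : Fin.castLE hr.le i ≠ l := by
        intro h3
        have := congrArg Fin.val h3
        have h4 := i.2
        simp only [Fin.val_castLE, l] at this
        omega
      simp only [c, if_neg this]
    rw [h2, one_smul] at h1
    exact h1

end Pool.Agent.P2a19di
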