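import Pool.Agent.Lib.P2a19di.Main
import Pool.Agent.Lib.P2a19di.Special
import Pool.Agent.Lib.P2a19di.Expand

/-!
Groups containing many isometries.
-/

set_option autoImplicit false

namespace Pool.Agent.P2a19di

open Module Pool.Agent.P2a19db

variable {𝕜 V : Type*} [RCLike 𝕜] [NormedAddCommGroup V] [InnerProductSpace 𝕜 V]

/-- the group of the isometries in `G` -/
def isom (G : Subgroup (V ≃ₗ[𝕜] V)) : Subgroup (V ≃ₗ[𝕜] V) where
  carrier := {g | g ∈ G ∧ ∀ v, ‖g v‖ = ‖v‖}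
  mul_mem' {g h} hg hh := ⟨mul_mem hg.1 hh.1, fun v => by
    rw [LinearEquiv.mul_apply, hg.2, hh.2]⟩
  one_mem' := ⟨one_mem _, fun _ => rfl⟩
  inv_mem' {g} hg := ⟨inv_mem hg.1, fun v => by
    have h := hg.2 (g⁻¹ v)
    have e1 : g (g⁻¹ v) = v := g.apply_symm_apply v
    rw [e1] at h
    exact h.symm⟩

lemma mem_isom {G : Subgroup (V ≃ₗ[𝕜] V)} {g : V ≃ₗ[𝕜] V} :
    g ∈ isom G ↔ g ∈ G ∧ ∀ v, ‖g v‖ = ‖v‖ := Iff.rfl

lemma pair_mono' {F W : Type*} [Field F] [AddCommGroup W] [Module F W] {a : Module.End F W}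
    (hK : LinearMap.ker a ≠ ⊥) {G K : Subgroup (W ≃ₗ[F] W)}
    (hKG : K ≤ G) (h : IsAutPair a K) : IsAutPair a G := by
  unfold IsAutPair at h ⊢
  apply Set.eq_of_subset_of_subset
  · rintro x ⟨hx, hxG⟩
    obtain ⟨v, hv, hxv⟩ := exists_ker_of_mem hK hx hxG
    exact ⟨gen_mono le_top hx, not_unit_of_kernel hv hxv ⊤⟩
  · intro x hx
    have hx' := hx
    rw [← h] at hx'
    refine ⟨gen_mono hKG hx'.1, ?_⟩
    rintro ⟨g, hg, e⟩
    exact hx.2 ⟨g, trivial, e⟩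

/-- powers of the expansion -/
lemma exists_power {G : Subgroup (V ≃ₗ[𝕜] V)} {r : ℕ} (hF : FrameTrans (isom G) r)
    {g1 : V ≃ₗ[𝕜] V} (hg1 : g1 ∈ G) {f e : Fin r → V} {σ : Fin r → ℝ} (hf : Orthonormal 𝕜 f)
    (he : Orthonormal 𝕜 e) (h1 : ∀ i, g1 (f i) = (σ i : 𝕜) • e i) (m : ℕ) :
    ∃ g ∈ G, ∀ i, g (f i) = ((σ i ^ (m + 1) : ℝ) : 𝕜) • e i := by
  induction m with
  | zero => exact ⟨g1, hg1, fun i => by rw [h1]; simp⟩
  | succ m ih =>
    obtain ⟨g, hg, hgi⟩ := ih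
    obtain ⟨h, hh, hhi⟩ := hF e f he hf
    refine ⟨g1 * h * g, mul_mem (mul_mem hg1 hh.1) hg, fun i => ?_⟩
    rw [LinearEquiv.mul_apply, LinearEquiv.mul_apply, hgi, map_smul, hhi, map_smul, h1, smul_smul,
      ← RCLike.ofReal_mul, ← pow_succ]

variable [FiniteDimensional 𝕜 V]

theorem suff_expand {a : Module.End 𝕜 V} (ha : ¬ IsUnit a) (ha0 : a ≠ 0) {G : Subgroup (V ≃ₗ[𝕜] V)}
    (hF : FrameTrans (isom G) (finrank 𝕜 (LinearMap.range a))) {g : V ≃ₗ[𝕜] V} (hg : g ∈ G)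
    (hni : ¬ ∀ v, ‖g v‖ = ‖v‖) : IsAutPair a G := by
  have hlt := rank_lt ha
  set r := finrank 𝕜 (LinearMap.range a) with hr
  have hr0 : r ≠ 0 := by
    intro h0
    rw [hr] at h0
    have h1 := Submodule.finrank_eq_zero.1 h0
    exact ha0 (LinearMap.range_eq_bot.1 h1)
  have : NeZero r := ⟨hr0⟩
  obtain ⟨u₀, w₀, hu₀, hw₀, hau⟩ := exists_MM a hlt.le le_rfl
  have hs : (fun i : Fin r => a.singularValues i) ∈ DD (gen a G : Set (Module.End 𝕜 V)) r := by
    intro u w hu hw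
    obtain ⟨g, hg, hgw⟩ := hF w₀ w hw₀ hw
    obtain ⟨h, hh, hhu⟩ := hF u u₀ hu hu₀
    have e : (MM w (fun i : Fin r => a.singularValues i) u : Module.End 𝕜 V) =
        (g : V →ₗ[𝕜] V) * a * (h : V →ₗ[𝕜] V) := by
      conv_rhs => rw [hau]
      rw [left_mul_MM]
      have e1 : (fun i => (g : V →ₗ[𝕜] V) (w₀ i)) = w := funext fun i => hgw i
      have e2 : u₀ = (fun i => (h : V →ₗ[𝕜] V) (u i)) := (funext fun i => hhu i).symm
      rw [e1, e2, MM_mul_right _ (fun v => hh.2 v)]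
    rw [e]
    exact mul_mem (mul_mem (g_mem hg.1) a_mem) (g_mem hh.1)
  obtain ⟨g1, hg1, f, e, σ, hf, he, hσ, hfe, hprod⟩ := exists_expand hg hni (Nat.pos_of_ne_zero hr0) hlt
  have hpos : 0 < ∏ i : Fin r, a.singularValues i :=
    Finset.prod_pos fun i _ => a.singularValues_pos_iff_lt_finrank_range.2 i.2
  set p := ∏ i : Fin r, a.singularValues i with hp
  obtain ⟨m, hm⟩ := pow_unbounded_of_one_lt (1 / (p * p)) hprod
  obtain ⟨g', hg', hgi⟩ := exists_power hF hg1 hf he hfe m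
  have hs' : (fun i : Fin r => a.singularValues i * σ i ^ (m + 1) * a.singularValues i) ∈
      DD (gen a G : Set (Module.End 𝕜 V)) r := by
    intro u w hu hw
    have h1 := hs e w he hw
    have h2 := hs u f hu hf
    have h3 : (MM w (fun i : Fin r => a.singularValues i * σ i ^ (m + 1) * a.singularValues i) u :
        Module.End 𝕜 V) = MM w (fun i : Fin r => a.singularValues i) e *
          ((g' : V →ₗ[𝕜] V) * MM f (fun i : Fin r => a.singularValues i) u) := by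
      rw [left_mul_MM, MM_mul w e (fun i => (g' : V →ₗ[𝕜] V) (f i)) u _ _ (fun i => σ i ^ (m + 1))]
      intro i j
      have e3 : (g' : V →ₗ[𝕜] V) (f j) = ((σ j ^ (m + 1) : ℝ) : 𝕜) • e j := hgi j
      rw [e3, inner_smul_right, orthonormal_iff_ite.1 he]
      by_cases hij : i = j
      · subst hij
        simp
      · simp [hij]
    rw [h3]
    exact mul_mem h1 (mul_mem (g_mem hg') h2)
  have hc := const_mem hs'
  have hd : 1 < ∏ i : Fin r, a.singularValues i * σ i ^ (m + 1) * a.singularValues i := by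
    rw [Finset.prod_mul_distrib, Finset.prod_mul_distrib, ← hp, Finset.prod_pow]
    have h4 : (∏ i, σ i) ^ m ≤ (∏ i, σ i) ^ (m + 1) := pow_le_pow_right₀ hprod.le (by omega)
    have h5 : 1 / (p * p) < (∏ i, σ i) ^ (m + 1) := lt_of_lt_of_le hm h4
    have h6 : 0 < p * p := mul_pos hpos hpos
    rw [div_lt_iff₀ h6] at h5
    calc (1 : ℝ) < (∏ i, σ i) ^ (m + 1) * (p * p) := h5
      _ = p * (∏ i, σ i) ^ (m + 1) * p := by ring
  refine isPair_of_mem ha fun x hx => ?_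
  obtain ⟨u, w, hu, hw, hxu⟩ := exists_MM x hlt.le hx
  rw [hxu]
  exact all_mem hlt hd hc _ (fun i => x.singularValues_nonneg i) u w hu hw

/-- The criterion for the groups whose isometries are transitive on orthonormal systems. -/
theorem crit_over {a : Module.End 𝕜 V} (ha : ¬ IsUnit a) (ha0 : a ≠ 0) {G : Subgroup (V ≃ₗ[𝕜] V)}
    (hF : FrameTrans (isom G) (finrank 𝕜 (LinearMap.range a))) :
    IsAutPair a G ↔ (1 < ∏ i ∈ Finset.range (finrank 𝕜 (LinearMap.range a)), a.singularValues i) ∨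
      ∃ g ∈ G, ∃ v, ‖g v‖ ≠ ‖v‖ := by
  constructor
  · intro hp
    by_cases h : ∃ g ∈ G, ∃ v, ‖g v‖ ≠ ‖v‖
    · exact Or.inr h
    · push Not at h
      exact Or.inl (nec ha ha0 h hp)
  · rintro (h | ⟨g, hg, v, hv⟩)
    · have h1 : IsAutPair a (isom G) := suff (G := isom G) ha ha0 (fun g hg => (mem_isom.1 hg).2) hF h
      exact pair_mono' (ker_ne_bot ha) (fun g hg => (mem_isom.1 hg).1) h1
    · exact suff_expand ha ha0 hF hg fun h => hv (h v)

end Pool.Agent.P2a19di
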