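import Pool.Agent.Lib.P2a19di.Svd

/-!
Sufficiency: if `G` is transitive on orthonormal `r`-frames and the product of the singular values
is greater than one, then every map of rank at most `r` is generated by `a` and `G`.
-/

set_option autoImplicit false

namespace Pool.Agent.P2a19di

open Module Pool.Agent.P2a19db

variable {𝕜 V : Type*} [RCLike 𝕜] [NormedAddCommGroup V] [InnerProductSpace 𝕜 V]

/-- `G` is transitive on the orthonormal systems of `r` vectors -/
def FrameTrans (G : Subgroup (V ≃ₗ[𝕜] V)) (r : ℕ) : Prop :=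
  ∀ u w : Fin r → V, Orthonormal 𝕜 u → Orthonormal 𝕜 w → ∃ g ∈ G, ∀ i, g (u i) = w i

/-- the real diagonals realised by a set `S` for all pairs of orthonormal systems -/
def DD (S : Set (Module.End 𝕜 V)) (r : ℕ) : Set (Fin r → ℝ) :=
  {d | ∀ u w : Fin r → V, Orthonormal 𝕜 u → Orthonormal 𝕜 w → MM w d u ∈ S}

lemma DD_mul {a : Module.End 𝕜 V} {G : Subgroup (V ≃ₗ[𝕜] V)} {r : ℕ} {d d' : Fin r → ℝ}
    (hd : d ∈ DD (gen a G : Set (Module.End 𝕜 V)) r) (hd' : d' ∈ DD (gen a G : Set (Module.End 𝕜 V)) r) :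
    d * d' ∈ DD (gen a G : Set (Module.End 𝕜 V)) r := by
  intro u w hu hw
  have h := MM_mul w u u u d d' (fun _ => 1) (fun i j => by
    rw [orthonormal_iff_ite.1 hu]
    simp)
  have e : (fun i => d i * 1 * d' i) = d * d' := by
    ext i
    simp
  rw [e] at h
  rw [← h]
  exact mul_mem (hd u w hu hw) (hd' u u hu hu)

lemma DD_perm {S : Set (Module.End 𝕜 V)} {r : ℕ} {d : Fin r → ℝ} (hd : d ∈ DD S r)
    (π : Equiv.Perm (Fin r)) : d ∘ π ∈ DD S r := by
  intro u w hu hw
  rw [MM_perm]
  exact hd _ _ (hu.comp _ π.symm.injective) (hw.comp _ π.symm.injective)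

lemma const_mem {a : Module.End 𝕜 V} {G : Subgroup (V ≃ₗ[𝕜] V)} {r : ℕ} [NeZero r] {s : Fin r → ℝ}
    (hs : s ∈ DD (gen a G : Set (Module.End 𝕜 V)) r) :
    (fun _ => ∏ i, s i) ∈ DD (gen a G : Set (Module.End 𝕜 V)) r := by
  have h := Finset.prod_induction_nonempty (s := (Finset.univ : Finset (Fin r)))
    (fun k => s ∘ (Equiv.addRight k : Equiv.Perm (Fin r)))
    (fun d => d ∈ DD (gen a G : Set (Module.End 𝕜 V)) r) (fun _ _ => DD_mul)
    Finset.univ_nonempty (fun k _ => DD_perm hs _)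
  convert h using 1
  ext i
  rw [Finset.prod_apply]
  refine (Fintype.prod_equiv (Equiv.addLeft i) _ _ fun k => ?_).symm
  simp

lemma pow_mem' {a : Module.End 𝕜 V} {G : Subgroup (V ≃ₗ[𝕜] V)} {r : ℕ} {δ : ℝ}
    (hs : (fun _ => δ) ∈ DD (gen a G : Set (Module.End 𝕜 V)) r) (m : ℕ) :
    (fun _ => δ ^ (m + 1)) ∈ DD (gen a G : Set (Module.End 𝕜 V)) r := by
  induction m with
  | zero => simpa using hs
  | succ m ih =>
    have := DD_mul ih hs
    convert this using 1
    ext i
    simp [pow_succ]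

/-- shrinking one entry -/
lemma shrink_mem [FiniteDimensional 𝕜 V] {a : Module.End 𝕜 V} {G : Subgroup (V ≃ₗ[𝕜] V)} {r : ℕ} {δ : ℝ}
    (hr : r < finrank 𝕜 V) (hs : (fun _ => δ) ∈ DD (gen a G : Set (Module.End 𝕜 V)) r) (i₀ : Fin r)
    {c : ℝ} (hc0 : 0 ≤ c) (hc1 : c ≤ 1) :
    (fun i => δ * (if i = i₀ then c else 1) * δ) ∈ DD (gen a G : Set (Module.End 𝕜 V)) r := by
  intro u w hu hw
  -- a unit vector orthogonal to all `u i`
  obtain ⟨x, hx1, hx⟩ : ∃ x : V, ‖x‖ = 1 ∧ ∀ i, inner 𝕜 (u i) x = 0 := by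
    have h1 : finrank 𝕜 (Submodule.span 𝕜 (Set.range u)) = r := by
      rw [finrank_span_eq_card hu.linearIndependent, Fintype.card_fin]
    have h2 : Submodule.span 𝕜 (Set.range u) ≠ ⊤ := by
      intro h
      rw [h, finrank_top] at h1
      omega
    have h3 : (Submodule.span 𝕜 (Set.range u))ᗮ ≠ ⊥ := by
      rw [Ne, Submodule.orthogonal_eq_bot_iff]
      exact h2
    obtain ⟨y, hy, hy0⟩ := (Submodule.ne_bot_iff _).1 h3
    refine ⟨((‖y‖⁻¹ : ℝ) : 𝕜) • y, ?_, fun i => ?_⟩
    · rw [norm_smul, RCLike.norm_ofReal, abs_of_nonneg (by positivity),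
        inv_mul_cancel₀ (norm_ne_zero_iff.2 hy0)]
    · rw [inner_smul_right, (Submodule.mem_orthogonal _ _).1 hy _ (Submodule.subset_span ⟨i, rfl⟩),
        mul_zero]
  have hxu : ∀ i, inner 𝕜 x (u i) = 0 := fun i => by
    rw [← inner_conj_symm, hx, map_zero]
  have hxx : inner 𝕜 x x = (1 : 𝕜) := by
    rw [inner_self_eq_norm_sq_to_K, hx1]
    simp
  set t : ℝ := Real.sqrt (1 - c ^ 2) with ht
  have ht2 : t * t = 1 - c ^ 2 := Real.mul_self_sqrt (by nlinarith)
  let w' : Fin r → V := fun j => if j = i₀ then (c : 𝕜) • u i₀ + (t : 𝕜) • x else u j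
  have hon := orthonormal_iff_ite.1 hu
  have huw : ∀ i j, inner 𝕜 (u i) (w' j) = if i = j then (((if i = i₀ then c else 1 : ℝ)) : 𝕜) else 0 := by
    intro i j
    change inner 𝕜 (u i) (if j = i₀ then (c : 𝕜) • u i₀ + (t : 𝕜) • x else u j) = _
    by_cases hj : j = i₀
    · subst hj
      rw [if_pos rfl, inner_add_right, inner_smul_right, inner_smul_right, hx, hon]
      by_cases hij : i = j
      · subst hij
        simp
      · simp [hij]
    · rw [if_neg hj, hon]
      by_cases hij : i = j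
      · subst hij
        simp [hj]
      · simp [hij]
  have hw' : Orthonormal 𝕜 w' := by
    rw [orthonormal_iff_ite]
    intro i j
    by_cases hi : i = i₀
    · subst hi
      have e : w' i = (c : 𝕜) • u i + (t : 𝕜) • x := if_pos rfl
      by_cases hj : j = i
      · subst hj
        rw [e, if_pos rfl, inner_add_left, inner_smul_left, inner_smul_left, inner_add_right,
          inner_add_right, inner_smul_right, inner_smul_right, inner_smul_right, inner_smul_right,
          hx, hxu, hxx, hon, if_pos rfl, RCLike.conj_ofReal, RCLike.conj_ofReal]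
        have : ((c * c + t * t : ℝ) : 𝕜) = ((1 : ℝ) : 𝕜) := by
          congr 1
          rw [ht2]
          ring
        push_cast at this
        linear_combination this
      · have e2 : w' j = u j := if_neg hj
        rw [e, e2, if_neg (fun h => hj h.symm), inner_add_left, inner_smul_left, inner_smul_left, hxu,
          hon, if_neg (fun h => hj h.symm)]
        simp
    · have e : w' i = u i := if_neg hi
      rw [e, huw]
      by_cases hij : i = j
      · subst hij
        simp [hi]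
      · simp [hij]
  rw [← MM_mul w u w' u (fun _ => δ) (fun _ => δ) (fun i => if i = i₀ then c else 1) huw]
  exact mul_mem (hs u w hu hw) (hs u w' hu hw')

/-- all nonnegative diagonals -/
lemma all_mem [FiniteDimensional 𝕜 V] {a : Module.End 𝕜 V} {G : Subgroup (V ≃ₗ[𝕜] V)} {r : ℕ} {δ : ℝ}
    (hr : r < finrank 𝕜 V) (hδ : 1 < δ) [NeZero r]
    (hs : (fun _ => δ) ∈ DD (gen a G : Set (Module.End 𝕜 V)) r) (d : Fin r → ℝ) (hd : ∀ i, 0 ≤ d i) :
    d ∈ DD (gen a G : Set (Module.End 𝕜 V)) r := by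
  obtain ⟨m, hm⟩ := pow_unbounded_of_one_lt (∑ i, d i) hδ
  have hδ0 : 0 < δ := by linarith
  have hK : 0 < δ ^ (m + 1) * (δ * δ) ^ r := by positivity
  set K := δ ^ (m + 1) * (δ * δ) ^ r with hKdef
  have hle : ∀ i, d i ≤ K := by
    intro i
    have h1 : d i ≤ ∑ i, d i := Finset.single_le_sum (fun j _ => hd j) (Finset.mem_univ i)
    have h2 : δ ^ m ≤ δ ^ (m + 1) := pow_le_pow_right₀ hδ.le (by omega)
    have h3 : 1 ≤ (δ * δ) ^ r := one_le_pow₀ (by nlinarith)
    have h4 : 0 < δ ^ (m + 1) := by positivity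
    nlinarith
  have h := Finset.prod_induction_nonempty (s := (Finset.univ : Finset (Fin r)))
    (fun k i => δ * (if i = k then d k / K else 1) * δ)
    (fun d => d ∈ DD (gen a G : Set (Module.End 𝕜 V)) r) (fun _ _ => DD_mul)
    Finset.univ_nonempty (fun k _ => shrink_mem hr hs k (div_nonneg (hd k) hK.le)
      ((div_le_one hK).2 (hle k)))
  have h2 := DD_mul (pow_mem' hs m) h
  convert h2 using 1
  ext i
  rw [Pi.mul_apply, Finset.prod_apply]
  have : ∀ k ∈ (Finset.univ : Finset (Fin r)), δ * (if i = k then d k / K else 1) * δ =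
      (δ * δ) * (if i = k then d i / K else 1) := by
    intro k _
    by_cases hik : i = k
    · subst hik
      simp
      ring
    · simp [hik]
  rw [Finset.prod_congr rfl this, Finset.prod_mul_distrib, Finset.prod_const, Finset.prod_ite_eq,
    if_pos (Finset.mem_univ _), Finset.card_univ, Fintype.card_fin]
  field_simp
  rw [hKdef]
  ring

end Pool.Agent.P2a19di
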