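import Pool.Agent.Lib.P2a19db.Criterion

/-!
Singular value decomposition and the operators `v ↦ ∑ i, d i ⟪u i, v⟫ w i`.
-/

set_option autoImplicit false

namespace Pool.Agent.P2a19di

open Module

variable {𝕜 V : Type*} [RCLike 𝕜] [NormedAddCommGroup V] [InnerProductSpace 𝕜 V]

/-- the operator `v ↦ ∑ i, d i ⟪u i, v⟫ w i` -/
noncomputable def MM {r : ℕ} (w : Fin r → V) (d : Fin r → ℝ) (u : Fin r → V) : Module.End 𝕜 V :=
  ∑ i, (d i : 𝕜) • (innerₛₗ 𝕜 (u i)).smulRight (w i)

lemma MM_apply {r : ℕ} (w : Fin r → V) (d : Fin r → ℝ) (u : Fin r → V) (v : V) :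
    (MM w d u : Module.End 𝕜 V) v = ∑ i, ((d i : 𝕜) * inner 𝕜 (u i) v) • w i := by
  simp only [MM, LinearMap.sum_apply, LinearMap.smul_apply, LinearMap.smulRight_apply,
    innerₛₗ_apply_apply, smul_smul]

lemma MM_mul {r : ℕ} (w u w' u' : Fin r → V) (d d' c : Fin r → ℝ)
    (h : ∀ i j, inner 𝕜 (u i) (w' j) = if i = j then (c i : 𝕜) else 0) :
    (MM w d u : Module.End 𝕜 V) * MM w' d' u' = MM w (fun i => d i * c i * d' i) u' := by
  ext v
  rw [Module.End.mul_apply, MM_apply w', MM_apply w, MM_apply]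
  refine Finset.sum_congr rfl fun i _ => ?_
  rw [inner_sum]
  have : ∀ j ∈ Finset.univ, inner 𝕜 (u i) (((d' j : 𝕜) * inner 𝕜 (u' j) v) • w' j) =
      if i = j then ((d' i : 𝕜) * inner 𝕜 (u' i) v) * (c i : 𝕜) else 0 := by
    intro j _
    rw [inner_smul_right, h]
    by_cases hij : i = j
    · subst hij
      simp
    · simp [hij]
  rw [Finset.sum_congr rfl this]
  simp only [Finset.sum_ite_eq, Finset.mem_univ, if_true]
  congr 1
  push_cast
  ring

lemma MM_perm {r : ℕ} (w u : Fin r → V) (d : Fin r → ℝ) (π : Equiv.Perm (Fin r)) :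
    (MM w (d ∘ π) u : Module.End 𝕜 V) = MM (w ∘ π.symm) d (u ∘ π.symm) := by
  ext v
  rw [MM_apply, MM_apply]
  refine Fintype.sum_equiv π _ _ fun i => ?_
  simp

lemma left_mul_MM {r : ℕ} (g : V →ₗ[𝕜] V) (w u : Fin r → V) (d : Fin r → ℝ) :
    (g : Module.End 𝕜 V) * MM w d u = MM (fun i => g (w i)) d u := by
  ext v
  rw [Module.End.mul_apply, MM_apply, MM_apply, map_sum]
  refine Finset.sum_congr rfl fun i _ => ?_
  rw [map_smul]

lemma inner_map {g : V →ₗ[𝕜] V} (hg : ∀ v, ‖g v‖ = ‖v‖) (x y : V) :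
    inner 𝕜 (g x) (g y) = inner 𝕜 x y :=
  LinearIsometry.inner_map_map (⟨g, hg⟩ : V →ₗᵢ[𝕜] V) x y

lemma MM_mul_right {r : ℕ} (g : V →ₗ[𝕜] V) (hg : ∀ v, ‖g v‖ = ‖v‖) (w u : Fin r → V) (d : Fin r → ℝ) :
    (MM w d (fun i => g (u i)) : Module.End 𝕜 V) * g = MM w d u := by
  ext v
  rw [Module.End.mul_apply, MM_apply, MM_apply]
  refine Finset.sum_congr rfl fun i _ => ?_
  rw [inner_map hg]

variable [FiniteDimensional 𝕜 V]

lemma svd (c : Module.End 𝕜 V) : ∃ b e : OrthonormalBasis (Fin (finrank 𝕜 V)) 𝕜 V,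
    ∀ i, c (b i) = (c.singularValues i : 𝕜) • e i := by
  have hT : (LinearMap.adjoint c ∘ₗ c).IsSymmetric := c.isSymmetric_adjoint_comp_self
  let b := hT.eigenvectorBasis rfl
  have hb : ∀ i, (LinearMap.adjoint c) (c (b i)) = (hT.eigenvalues rfl i : 𝕜) • b i :=
    fun i => hT.apply_eigenvectorBasis rfl i
  have hsq : ∀ i : Fin (finrank 𝕜 V), (c.singularValues i) ^ 2 = hT.eigenvalues rfl i :=
    fun i => c.sq_singularValues_fin rfl i
  have hin : ∀ i j, inner 𝕜 (c (b i)) (c (b j)) =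
      if i = j then ((c.singularValues i : 𝕜)) * (c.singularValues i : 𝕜) else 0 := by
    intro i j
    rw [← LinearMap.adjoint_inner_right, hb, inner_smul_right, orthonormal_iff_ite.1 b.orthonormal,
      ← hsq]
    by_cases hij : i = j
    · subst hij
      simp [pow_two]
    · simp [hij]
  let v : Fin (finrank 𝕜 V) → V := fun i => ((c.singularValues i : 𝕜))⁻¹ • c (b i)
  let s : Set (Fin (finrank 𝕜 V)) := {i | c.singularValues i ≠ 0}
  have hv : Orthonormal 𝕜 (s.domRestrict v) := by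
    rw [orthonormal_iff_ite]
    rintro ⟨i, hi⟩ ⟨j, hj⟩
    change inner 𝕜 (((c.singularValues i : 𝕜))⁻¹ • c (b i)) (((c.singularValues j : 𝕜))⁻¹ • c (b j)) = _
    rw [inner_smul_left, inner_smul_right, hin]
    have hi' : (c.singularValues i : 𝕜) ≠ 0 := by
      have : c.singularValues i ≠ 0 := hi
      exact_mod_cast this
    by_cases hij : i = j
    · subst hij
      simp only [if_true]
      rw [map_inv₀, RCLike.conj_ofReal]
      field_simp
    · simp [hij]
  obtain ⟨e, he⟩ := hv.exists_orthonormalBasis_extension_of_card_eq (by simp)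
  refine ⟨b, e, fun i => ?_⟩
  by_cases hi : c.singularValues i = 0
  · have h0 := hin i i
    rw [if_pos rfl, hi] at h0
    simp only [RCLike.ofReal_zero, mul_zero, inner_self_eq_zero] at h0
    rw [h0, hi]
    simp
  · rw [he i hi]
    change _ = (c.singularValues i : 𝕜) • ((c.singularValues i : 𝕜))⁻¹ • c (b i)
    rw [smul_smul, mul_inv_cancel₀ (by exact_mod_cast hi), one_smul]

/-- every endomorphism of rank at most `r` is some `MM w d u` with orthonormal `u`, `w` -/
lemma exists_MM (c : Module.End 𝕜 V) {r : ℕ} (hr : r ≤ finrank 𝕜 V)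
    (hc : finrank 𝕜 (LinearMap.range c) ≤ r) :
    ∃ u w : Fin r → V, Orthonormal 𝕜 u ∧ Orthonormal 𝕜 w ∧
      c = MM w (fun i => c.singularValues i) u := by
  obtain ⟨b, e, hbe⟩ := svd c
  refine ⟨fun i => b (Fin.castLE hr i), fun i => e (Fin.castLE hr i),
    b.orthonormal.comp _ (Fin.castLE_injective hr), e.orthonormal.comp _ (Fin.castLE_injective hr), ?_⟩
  refine b.toBasis.ext fun j => ?_
  rw [OrthonormalBasis.coe_toBasis, hbe, MM_apply]
  by_cases hj : (j : ℕ) < r
  · rw [Finset.sum_eq_single (⟨j, hj⟩ : Fin r)]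
    · have : Fin.castLE hr ⟨(j : ℕ), hj⟩ = j := rfl
      rw [this]
      simp
    · intro i _ hi
      have : Fin.castLE hr i ≠ j := fun h => hi (Fin.ext (by simpa using congrArg Fin.val h))
      rw [orthonormal_iff_ite.1 b.orthonormal, if_neg this]
      simp
    · simp
  · have h0 : c.singularValues j = 0 :=
      (LinearMap.singularValues_eq_zero_iff_le_finrank_range c).2 (by omega)
    rw [h0]
    simp only [RCLike.ofReal_zero, zero_smul]
    symm
    refine Finset.sum_eq_zero fun i _ => ?_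
    have : Fin.castLE hr i ≠ j := fun h => hj (by rw [← h]; exact i.2)
    rw [orthonormal_iff_ite.1 b.orthonormal, if_neg this]
    simp

end Pool.Agent.P2a19di
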